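import Pool.Agent.Q202.DG.L2

/-!
# Project DG (helper205), job DG-DL: distance one from complementary blocks; hyperimmune sets
-/

set_option autoImplicit false

namespace Pool.Agent.Q202.DG

open Pool.Agent.Helper743 Pool.Agent.H166R3.HD Pool.Agent.Q205.DG
open Pool.Agent.H454R3.Att
open Nat.Partrec (Code)
open Filter Topology
open scoped Classical

theorem delta_blocks {X Y : Set ℕ} (h : ∀ N, ∃ e ≥ N, ∀ x, Nat.factorial e ≤ x →
    x < Nat.factorial (e + 1) → (x ∈ X ↔ x ∉ Y)) : 1 ≤ delta X Y := by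
  have key : ∀ K : ℕ, 1 - 1 / ((K : ℝ) + 1) ≤ delta X Y := by
    intro K
    refine le_upperDensity ?_
    rw [frequently_atTop]
    intro N
    obtain ⟨e, he, hb⟩ := h (max N K)
    refine ⟨Nat.factorial (e + 1), ?_, ?_⟩
    · have h1 := Nat.self_le_factorial (e + 1)
      have h2 := le_max_left N K
      show N ≤ Nat.factorial (e + 1)
      omega
    · have hsub : (Finset.Ico (Nat.factorial e) (Nat.factorial (e + 1)) : Set ℕ) ⊆
          symmDiff X Y ∩ Set.Iio (Nat.factorial (e + 1)) := by
        intro x hx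
        rw [Finset.coe_Ico, Set.mem_Ico] at hx
        refine ⟨?_, hx.2⟩
        have := hb x hx.1 hx.2
        rw [Set.mem_symmDiff]
        by_cases h1 : x ∈ X
        · exact Or.inl ⟨h1, this.1 h1⟩
        · right
          refine ⟨?_, h1⟩
          by_contra h2
          exact h1 (this.2 h2)
      have h1 := Set.ncard_le_ncard hsub (fin_inter _ _)
      rw [Set.ncard_coe_finset, Nat.card_Ico] at h1
      have hpos : (0 : ℝ) < (Nat.factorial e : ℝ) := by exact_mod_cast Nat.factorial_pos e
      have hKe : (K : ℝ) ≤ e := by exact_mod_cast (le_max_right N K).trans he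
      have h2 : ((Nat.factorial (e + 1) : ℕ) : ℝ) = ((e : ℝ) + 1) * Nat.factorial e := by
        rw [Nat.factorial_succ]
        push_cast
        ring
      have h3 : ((Nat.factorial (e + 1) - Nat.factorial e : ℕ) : ℝ) =
          ((e : ℝ) + 1) * Nat.factorial e - Nat.factorial e := by
        rw [Nat.cast_sub (Nat.factorial_le (Nat.le_succ e)), h2]
      have h4 : ((Nat.factorial (e + 1) - Nat.factorial e : ℕ) : ℝ) ≤
          ((symmDiff X Y ∩ Set.Iio (Nat.factorial (e + 1))).ncard : ℝ) := by exact_mod_cast h1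
      rw [h3] at h4
      have he0 : (0 : ℝ) < (e : ℝ) + 1 := by positivity
      have hK0 : (0 : ℝ) < (K : ℝ) + 1 := by positivity
      rw [h2, le_div_iff₀ (by positivity)]
      refine le_trans ?_ h4
      have h5 : 1 / ((e : ℝ) + 1) ≤ 1 / ((K : ℝ) + 1) :=
        one_div_le_one_div_of_le hK0 (by linarith)
      have h6 : (1 - 1 / ((K : ℝ) + 1)) * (((e : ℝ) + 1) * Nat.factorial e) ≤
          (1 - 1 / ((e : ℝ) + 1)) * (((e : ℝ) + 1) * Nat.factorial e) :=
        mul_le_mul_of_nonneg_right (by linarith) (by positivity)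
      refine h6.trans (le_of_eq ?_)
      field_simp
  have hlim : Tendsto (fun K : ℕ => 1 - 1 / ((K : ℝ) + 1)) atTop (𝓝 (1 - 0)) :=
    tendsto_const_nhds.sub tendsto_one_div_add_atTop_nhds_zero_nat
  rw [sub_zero] at hlim
  exact le_of_tendsto' hlim key

theorem dis : S_DIS := by
  intro A C X hXA hb
  unfold H
  have hX : cls X ∈ closure (low (deg A)) := subset_closure ⟨X, A, rfl, hXA, rfl⟩
  have hne : (closure (low (deg C))).Nonempty :=
    ⟨cls C, subset_closure ⟨C, C, rfl, Le.refl C, rfl⟩⟩
  refine one_le_hausdorff hne hX ?_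
  intro y hy
  refine le_of_forall_pos_le_add fun ε hε => ?_
  obtain ⟨z, hz, hd⟩ := Metric.mem_closure_iff.1 hy ε hε
  obtain ⟨Y, D, hD, hYD, rfl⟩ := hz
  have hDC : Le D C := (Quotient.exact hD).1
  have h1 := delta_blocks (hb Y (hYD.trans hDC))
  have h2 := delta_triangle X y Y
  rw [dist_cls] at hd
  linarith

/-- the sums of the values -/
def Fs (f : ℕ → ℕ) : ℕ → ℕ
  | 0 => f 0
  | n + 1 => Fs f n + f (n + 1)

lemma le_Fs (f : ℕ → ℕ) {i n : ℕ} (h : i ≤ n) : f i ≤ Fs f n := by
  induction n with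
  | zero =>
    have : i = 0 := by omega
    subst this
    exact le_rfl
  | succ n ih =>
    rw [Fs]
    rcases Nat.lt_or_ge n i with h1 | h1
    · have : i = n + 1 := by omega
      subst this
      omega
    · have := ih h1
      omega

lemma RecT.Fs {O : Set (ℕ →. ℕ)} {f : ℕ → ℕ} (hf : RecT O f) : RecT O (Q202.DG.Fs f) := by
  have hstep : RecT O (fun z => z.unpair.2.unpair.2 + f (z.unpair.2.unpair.1 + 1)) :=
    RecT.add (RecT.snd (RecT.snd recT_id))
      (RecT.comp hf (RecT.add (RecT.fst (RecT.snd recT_id)) (recT_const 1)))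
  have h := RecT.comp (RecT.prec (recT_const (O := O) (f 0)) hstep)
    (RecT.pair (recT_const 0) recT_id)
  refine RecT.congr h ?_
  intro z
  simp only [Nat.unpair_pair]
  induction z with
  | zero => rfl
  | succ m ih => rw [Q202.DG.Fs, ← ih]

theorem le_of_TR {A B : Set ℕ} (h : TR (chi A) (chi B)) : Le A B := TR_iff.1 h

theorem l1 : S_L1 := by
  intro C f hf hhyp
  set F := Fs f with hFdef
  have hF : RecT {((chi C : ℕ → ℕ) : ℕ →. ℕ)} F := RecT.Fs hf
  let X : Set ℕ := {x | ∃ n < x + 1, Nat.factorial n ≤ x ∧ x < Nat.factorial (n + 1) ∧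
    run (F n) n.unpair.1 x ≠ 2}
  have hX : RP {((chi C : ℕ → ℕ) : ℕ →. ℕ)} (fun x => x ∈ X) := by
    have h1 : RP {((chi C : ℕ → ℕ) : ℕ →. ℕ)} (fun z => Nat.factorial z.unpair.2 ≤ z.unpair.1 ∧
        z.unpair.1 < Nat.factorial (z.unpair.2 + 1) ∧
        run (F z.unpair.2) z.unpair.2.unpair.1 z.unpair.1 ≠ 2) :=
      RP.and (RP.le (RecT.comp recT_fact (RecT.snd recT_id)) (RecT.fst recT_id))
        (RP.and (RP.lt (RecT.fst recT_id)
          (RecT.comp recT_fact (RecT.add (RecT.snd recT_id) (recT_const 1))))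
          (RP.not (RP.eq (RecT.run (RecT.comp hF (RecT.snd recT_id))
            (RecT.fst (RecT.snd recT_id)) (RecT.fst recT_id)) (recT_const 2))))
    refine RP.congr (RP.bex h1 (RecT.add recT_id (recT_const 1))) ?_
    intro x
    simp only [Nat.unpair_pair]
    exact Iff.rfl
  refine ⟨X, le_of_TR hX, ?_⟩
  intro Y hY N
  -- a program for the characteristic function of `Y`
  have hchi : Computable (chi Y) := by
    have h1 : Computable (fun n => bif (decide (n ∈ Y)) then 1 else 0 : ℕ → ℕ) := by
      obtain ⟨inst, h2⟩ := hY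
      refine Computable.cond (h2.of_eq fun n => ?_) (Computable.const 1) (Computable.const 0)
      congr
    refine h1.of_eq fun n => ?_
    unfold chi
    by_cases h : n ∈ Y <;> simp [h]
  obtain ⟨d, hd⟩ := Code.exists_code.1 (Partrec.nat_iff.1 hchi)
  set e := Encodable.encode d with he
  have hce : Denumerable.ofNat Code e = d := by rw [he, Denumerable.ofNat_encode]
  have hval : ∀ s x, 0 < run s e x → run s e x = chi Y x + 1 := by
    intro s x h
    unfold run at h ⊢
    rw [hce] at h ⊢
    cases hv : Code.evaln s d x with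
    | none => rw [hv] at h; simp at h
    | some y =>
      have h1 : y ∈ d.eval x := Code.evaln_sound hv
      rw [hd] at h1
      simp only [PFun.coe_val, Part.mem_some_iff] at h1
      rw [h1]; simp
  have htot : ∀ x, ∃ s, 0 < run s e x := by
    intro x
    have h1 : chi Y x ∈ d.eval x := by rw [hd]; simp
    obtain ⟨s, hs⟩ := Code.evaln_complete.1 h1
    refine ⟨s, ?_⟩
    unfold run
    rw [hce, Option.mem_def.1 hs]
    simp
  have htot2 : ∀ b, ∃ s, ∀ x < b, 0 < run s e x := by
    intro b
    induction b with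
    | zero => exact ⟨0, fun x hx => absurd hx (Nat.not_lt_zero x)⟩
    | succ b ih =>
      obtain ⟨s, hs⟩ := ih
      obtain ⟨s', hs'⟩ := htot b
      refine ⟨max s s', fun x hx => ?_⟩
      rcases Nat.lt_succ_iff_lt_or_eq.1 hx with h | h
      · rw [run_mono (le_max_left s s') (hs x h)]
        exact hs x h
      · subst h
        rw [run_mono (le_max_right s s') hs']
        exact hs'
  have hP : RP (∅ : Set (ℕ →. ℕ)) (fun z => ∀ x < Nat.factorial (Nat.pair e (z.unpair.1 + N) + 1),
      0 < run z.unpair.2 e x) := by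
    have h1 : RP (∅ : Set (ℕ →. ℕ)) (fun z => 0 < run z.unpair.1.unpair.2 e z.unpair.2) :=
      RP.lt (recT_const 0) (RecT.run (RecT.snd (RecT.fst recT_id)) (recT_const e)
        (RecT.snd recT_id))
    refine RP.congr (RP.ball h1 (RecT.comp recT_fact (RecT.add (RecT.pair (recT_const e)
      (RecT.add (RecT.fst recT_id) (recT_const N))) (recT_const 1)))) ?_
    intro z
    simp only [Nat.unpair_pair]
  obtain ⟨g, hg1, hg2⟩ := RecT.search hP (by
    intro a
    simp only [Nat.unpair_pair]
    exact htot2 _)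
  simp only [Nat.unpair_pair] at hg2
  obtain ⟨i, hi⟩ := hhyp g (recT_empty hg1)
  have hNle : i + N ≤ Nat.pair e (i + N) := Nat.right_le_pair e (i + N)
  refine ⟨Nat.pair e (i + N), by omega, ?_⟩
  intro x hx1 hx2
  have hgF : g i ≤ F (Nat.pair e (i + N)) := by
    have := le_Fs f (show i ≤ Nat.pair e (i + N) by omega)
    rw [hFdef]
    omega
  have hr : run (F (Nat.pair e (i + N))) e x = chi Y x + 1 := by
    have h1 := hg2 i x hx2
    have h2 := run_mono hgF h1
    rw [h2]
    exact hval _ _ h1
  constructor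
  · rintro ⟨n, hn, h1, h2, h3⟩ hxY
    have := block_unique hx1 hx2 h1 h2
    subst this
    rw [Nat.unpair_pair] at h3
    apply h3
    rw [hr]
    unfold chi
    rw [if_pos hxY]
  · intro hxY
    refine ⟨Nat.pair e (i + N), ?_, hx1, hx2, ?_⟩
    · have := Nat.self_le_factorial (Nat.pair e (i + N))
      omega
    · rw [Nat.unpair_pair, hr]
      unfold chi
      rw [if_neg hxY]
      decide

end Pool.Agent.Q202.DG
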