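import Pool.Agent.Q205.DG.Stm

/-!
# Project DG (helper205), job DG-L2: a set far from all sets of hyperimmune-free degree
-/

set_option autoImplicit false

namespace Pool.Agent.Q202.DG

open Pool.Agent.Helper743 Pool.Agent.H166R3.HD Pool.Agent.Q205.DG
open Nat.Partrec (Code)
open scoped Classical

lemma recT_fact {O : Set (ℕ →. ℕ)} : RecT O Nat.factorial := by
  have hstep : RecT O (fun z => z.unpair.2.unpair.2 * (z.unpair.2.unpair.1 + 1)) :=
    RecT.mul (RecT.snd (RecT.snd recT_id)) (RecT.add (RecT.fst (RecT.snd recT_id)) (recT_const 1))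
  have h := RecT.comp (RecT.prec (recT_const (O := O) 1) hstep) (RecT.pair (recT_const 0) recT_id)
  refine RecT.congr h ?_
  intro z
  simp only [Nat.unpair_pair]
  induction z with
  | zero => rfl
  | succ m ih =>
    rw [Nat.factorial_succ, ← ih, mul_comm]

lemma recT_enc2 {O : Set (ℕ →. ℕ)} {B : ℕ → ℕ → Bool}
    (hB : RecT O (fun z => (B z.unpair.1 z.unpair.2).toNat))
    {n : ℕ → ℕ} (hn : RecT O n) : RecT O (fun e => enc (B e) (n e)) := by
  have hstep : RecT O (fun z => z.unpair.2.unpair.2 +
      2^z.unpair.2.unpair.1 * (B z.unpair.1 z.unpair.2.unpair.1).toNat) := by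
    refine RecT.add (RecT.snd (RecT.snd recT_id)) (RecT.mul
      (RecT.twopow (RecT.fst (RecT.snd recT_id))) ?_)
    refine RecT.congr (RecT.comp hB (RecT.pair (RecT.fst recT_id) (RecT.fst (RecT.snd recT_id)))) ?_
    intro z
    simp only [Nat.unpair_pair]
  have h := RecT.comp (RecT.prec (recT_const (O := O) 0) hstep) (RecT.pair recT_id hn)
  refine RecT.congr h ?_
  intro z
  simp only [Nat.unpair_pair]
  generalize n z = m
  induction m with
  | zero => rfl
  | succ m ih => rw [enc, ← ih]

/-- padding -/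
lemma padding (c : Code) (N : ℕ) : ∃ c' : Code, c'.eval = c.eval ∧ N ≤ Encodable.encode c' := by
  have hinj : Function.Injective (fun n : ℕ => Encodable.encode
      (Code.comp c (Code.comp Code.right (Code.pair (Code.const n) Code.id)))) := by
    intro n m h
    have h1 := Encodable.encode_injective h
    simp only [Code.comp.injEq, Code.pair.injEq, true_and, and_true] at h1
    exact Code.const_inj h1
  have hinf := Set.infinite_range_of_injective hinj
  obtain ⟨y, ⟨n, rfl⟩, hy⟩ := hinf.exists_gt N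
  refine ⟨_, ?_, hy.le⟩
  funext x
  simp only [Code.eval, Code.eval_const, Code.eval_id, Seq.seq]
  simp only [Part.map_some, Part.bind_some, Part.map_eq_map]
  have h1 : ∀ f : ℕ → Part ℕ, ((Part.some (Nat.pair n x)).bind
      (fun n => Part.some (Nat.unpair n).2)).bind f = f x := by
    intro f
    rw [Part.bind_some, Part.bind_some, Nat.unpair_pair]
  exact h1 _

theorem hyper2 {O : Set (ℕ →. ℕ)} {c : ℕ → ℕ} (hc : RecT O c) (N : ℕ)
    (hg : ∀ e, N ≤ e → ∀ s, st e s = Nat.pair (c e) s → ¬ Dv e (Nat.pair e s)) :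
    ∃ f : ℕ → ℕ, RecT O f ∧ ∀ F : ℕ → ℕ, Computable F → ∃ x, F x < f x := by
  have hA : RP O (fun x => N ≤ x.unpair.1 ∧
      st x.unpair.1 x.unpair.2 = Nat.pair (c x.unpair.1) x.unpair.2) :=
    RP.and (RP.le (recT_const N) (RecT.fst recT_id))
      (RP.eq (RecT.st (RecT.fst recT_id) (RecT.snd recT_id))
        (RecT.pair (RecT.comp hc (RecT.fst recT_id)) (RecT.snd recT_id)))
  have hB : RP O (fun z => ¬ (N ≤ z.unpair.1.unpair.1 ∧ st z.unpair.1.unpair.1 z.unpair.1.unpair.2 =
      Nat.pair (c z.unpair.1.unpair.1) z.unpair.1.unpair.2) ∨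
      0 < run z.unpair.2 z.unpair.1.unpair.1 z.unpair.1) :=
    RP.or (RP.not (RP.comp hA (RecT.fst recT_id)))
      (RP.lt (recT_const 0) (RecT.run (RecT.snd recT_id) (RecT.fst (RecT.fst recT_id))
        (RecT.fst recT_id)))
  obtain ⟨g, hg1, hg2⟩ := RecT.search hB (by
    intro x
    by_contra hcon
    push Not at hcon
    simp only [Nat.unpair_pair] at hcon
    refine hg x.unpair.1 (hcon 0).1.1 x.unpair.2 (hcon 0).1.2 (fun s => ?_)
    have := (hcon s).2
    rw [Nat.pair_unpair]
    omega)
  refine ⟨fun x => if N ≤ x.unpair.1 ∧ st x.unpair.1 x.unpair.2 = Nat.pair (c x.unpair.1) x.unpair.2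
    then run (g x) x.unpair.1 x else 0, RecT.ite' hA (RecT.run hg1 (RecT.fst recT_id) recT_id)
      (recT_const 0), ?_⟩
  intro F hF
  obtain ⟨d0, hd0⟩ := Code.exists_code.1 (Partrec.nat_iff.1 hF)
  obtain ⟨d, hd', hdN⟩ := padding d0 N
  have hd : d.eval = _ := hd'.trans hd0
  set e := Encodable.encode d with he
  have hce : Denumerable.ofNat Code e = d := by rw [he, Denumerable.ofNat_encode]
  have hval : ∀ s x, 0 < run s e x → run s e x = F x + 1 := by
    intro s x h
    unfold run at h ⊢
    rw [hce] at h ⊢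
    cases hv : Code.evaln s d x with
    | none => rw [hv] at h; simp at h
    | some y =>
      have h1 : y ∈ d.eval x := Code.evaln_sound hv
      rw [hd] at h1
      simp only [PFun.coe_val, Part.mem_some_iff] at h1
      rw [h1]; simp
  have htot : ∀ x, ¬ Dv e x := by
    intro x hx
    have h1 : F x ∈ d.eval x := by rw [hd]; simp
    obtain ⟨s, hs⟩ := Code.evaln_complete.1 h1
    have := hx s
    unfold run at this
    rw [hce, Option.mem_def.1 hs] at this
    simp at this
  obtain ⟨s, hs⟩ := st_all htot (c e)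
  refine ⟨Nat.pair e s, ?_⟩
  simp only [Nat.unpair_pair]
  rw [if_pos ⟨hdN, hs⟩]
  have h3 := hg2 (Nat.pair e s)
  simp only [Nat.unpair_pair] at h3
  rcases h3 with h3 | h3
  · exact absurd ⟨hdN, hs⟩ h3
  · rw [hval _ _ h3]; omega

/-- the number of the attempt against `e` which does not end -/
noncomputable def II (e : ℕ) : ℕ :=
  if h : ∃ i s, st e s = Nat.pair i s ∧ Dv e (Nat.pair e s) then h.choose else 0

lemma II_eq {e i s : ℕ} (h : st e s = Nat.pair i s) (hd : Dv e (Nat.pair e s)) : II e = i := by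
  have hex : ∃ i s, st e s = Nat.pair i s ∧ Dv e (Nat.pair e s) := ⟨i, s, h, hd⟩
  unfold II
  rw [dif_pos hex]
  obtain ⟨s', h1, h2⟩ := hex.choose_spec
  exact st_unique h1 h2 h hd

lemma block_unique {e e' x : ℕ} (h1 : Nat.factorial e ≤ x) (h2 : x < Nat.factorial (e + 1))
    (h3 : Nat.factorial e' ≤ x) (h4 : x < Nat.factorial (e' + 1)) : e = e' := by
  rcases lt_trichotomy e e' with h | h | h
  · have := Nat.factorial_le (show e + 1 ≤ e' from h)
    omega
  · exact h
  · have := Nat.factorial_le (show e' + 1 ≤ e from h)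
    omega

/-- the set: on the block `e` the bits of `II e` -/
def XX : Set ℕ := {x | ∃ e, Nat.factorial e ≤ x ∧ x < Nat.factorial (e + 1) ∧
  II e / 2 ^ (x - Nat.factorial e) % 2 = 1}

theorem l2 : S_L2 := by
  refine ⟨XX, XX, Le.refl _, fun Y => ?_⟩
  by_cases hY : ∀ N, ∃ e ≥ N, ∀ x, Nat.factorial e ≤ x → x < Nat.factorial (e + 1) →
      (x ∈ XX ↔ x ∉ Y)
  · exact Or.inl hY
  · right
    push Not at hY
    obtain ⟨N, hN⟩ := hY
    let B : ℕ → ℕ → Bool := fun e y => decide (Nat.factorial e + y ∉ Y)
    have hchi : RecT {((chi Y : ℕ → ℕ) : ℕ →. ℕ)} (chi Y) := TR.refl _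
    have hB : RecT {((chi Y : ℕ → ℕ) : ℕ →. ℕ)} (fun z => (B z.unpair.1 z.unpair.2).toNat) := by
      have h1 : RecT {((chi Y : ℕ → ℕ) : ℕ →. ℕ)}
          (fun z => 1 - chi Y (Nat.factorial z.unpair.1 + z.unpair.2)) :=
        RecT.sub (recT_const 1) (RecT.comp hchi (RecT.add (RecT.comp recT_fact (RecT.fst recT_id))
          (RecT.snd recT_id)))
      refine RecT.congr h1 ?_
      intro z
      show _ = (decide (Nat.factorial z.unpair.1 + z.unpair.2 ∉ Y)).toNat
      unfold chi
      by_cases h : Nat.factorial z.unpair.1 + z.unpair.2 ∈ Y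
      · simp [h]
      · simp [h]
    have hc : RecT {((chi Y : ℕ → ℕ) : ℕ →. ℕ)}
        (fun e => enc (B e) (Nat.factorial (e + 1) - Nat.factorial e)) :=
      recT_enc2 hB (RecT.sub (RecT.comp recT_fact (RecT.add recT_id (recT_const 1))) recT_fact)
    obtain ⟨f, hf, hF⟩ := hyper2 hc N (by
      intro e he s hs hd
      have hI := II_eq hs hd
      obtain ⟨x, hx1, hx2, hx3⟩ := hN e he
      have hmem : x ∈ XX ↔ x ∉ Y := by
        have hlt : x - Nat.factorial e < Nat.factorial (e + 1) - Nat.factorial e := by omega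
        have hbit := enc_bit (B e) hlt
        have hadd : Nat.factorial e + (x - Nat.factorial e) = x := by omega
        have hB' : B e (x - Nat.factorial e) = decide (x ∉ Y) := by
          show decide (Nat.factorial e + (x - Nat.factorial e) ∉ Y) = _
          rw [hadd]
        rw [hB'] at hbit
        constructor
        · rintro ⟨e', h1, h2, h3⟩
          have := block_unique hx1 hx2 h1 h2
          subst this
          rw [hI, hbit] at h3
          by_contra h
          rw [decide_eq_false (by simpa using h)] at h3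
          simp at h3
        · intro h
          refine ⟨e, hx1, hx2, ?_⟩
          rw [hI, hbit, decide_eq_true h]
          rfl
      rcases hx3 with h | h
      · exact (hmem.1 h.1) h.2
      · exact h.1 (hmem.2 h.2))
    exact ⟨f, hf, hF⟩

end Pool.Agent.Q202.DG
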